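import Pool.Agent.P8b2208.Final

/-!
A negative answer to Q1: an inner and `*`-outer function `θ` for which every `P₊ h`,
`h ∈ Ker θ*`, is zero or cyclic for `T*`.

`θ` is the characteristic function of the analytic Toeplitz operator `T_φ` on the scalar Hardy
space, where `φ` maps the disc conformally onto a domain whose boundary meets the unit circle in a
proper arc. This `T_φ` is a quasianalytic contraction of class `C₁₀` with asymptote of
multiplicity one living on that arc.
-/

open MeasureTheory AddCircle
open Pool.Agent.P8b2208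

namespace Pool.Agent.Results.MP_8b2208_an.NoncyclicDisproof

/-- The negation of Q1: it is false that for all separable complex Hilbert spaces `E`, `F = E_*`
and every inner and `*`-outer `θ ∈ H^∞(E, F)` (with boundary function `θb`) such that `K_θ ≠ {0}`
there is `h ∈ Ker θ*` with `P₊ h ≠ 0` not cyclic for `T*`. -/
theorem result :
    ¬ ∀ (E F : Type) [NormedAddCommGroup E] [InnerProductSpace ℂ E] [CompleteSpace E]
      [TopologicalSpace.SeparableSpace E] [NormedAddCommGroup F] [InnerProductSpace ℂ F]
      [CompleteSpace F] [TopologicalSpace.SeparableSpace F]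
      (θ : ℂ → E →L[ℂ] F) (θb : Circ → E →L[ℂ] F),
      IsHInf θ → IsBoundaryFn θ θb → IsInner θb → IsStarOuter θ → modelSpace θb ≠ ⊥ →
      ∃ h ∈ kerStar θb, rieszProj h ≠ 0 ∧ ¬ IsCyclicBackShift θb (rieszProj h) := by
  intro hQ
  have : Fact ((2 : ENNReal) ≠ ⊤) := ⟨by norm_num⟩
  have hsep : TopologicalSpace.SeparableSpace (L2 ℂ) := inferInstance
  obtain ⟨h1, h2, h3, h4, h5, h6⟩ := sym.conclusion
  obtain ⟨h, hk, h0, hc⟩ := hQ (L2 ℂ) (L2 ℂ) _ _ h1 h2 h3 h4 h5
  rcases h6 h hk with h7 | h7
  · exact h0 h7
  · exact hc h7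

end Pool.Agent.Results.MP_8b2208_an.NoncyclicDisproof
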